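import Pool.Agent.TOR.Stmts

/-!
# Squad TOR, row NUM

Numerical inequalities.
-/

set_option autoImplicit false

namespace Pool.Agent.TOR.H2

open Pool.Agent.TOR

theorem num_fac (m B : ℕ) (h : m ≤ B) : m.factorial ≤ B ^ m :=
  (Nat.factorial_le_pow m).trans (Nat.pow_le_pow_left h m)

theorem num_lt (B a b : ℕ) (hB : 2 ≤ B) (h : a < b) : B ^ a < B ^ b :=
  Nat.pow_lt_pow_right (by omega) h

theorem num : NumStmt := by
  intro k c n s D
  set B := n + s + D + k + c + 2 with hB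
  have hB2 : 2 ≤ B := by omega
  have hn : n ≤ B := by omega
  have hs : s ≤ B := by omega
  have hD : D ≤ B := by omega
  have hk : k ≤ B := by omega
  have hsn : s * n ≤ B ^ 2 := by
    rw [pow_two]
    exact Nat.mul_le_mul hs hn
  refine ⟨?_, ?_, ?_⟩
  · have h1 : k.factorial ≤ B ^ k := num_fac k B hk
    have h2 : s + s * s ≤ B ^ 2 := by
      have h3 : s + s * s = s * (s + 1) := by ring
      rw [h3, pow_two]
      exact Nat.mul_le_mul hs (by omega)
    have h3 : (s + s * s) ^ k ≤ B ^ (2 * k) := by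
      rw [pow_mul]
      exact Nat.pow_le_pow_left h2 k
    have h4 : k.factorial * (s + s * s) ^ k ≤ B ^ (3 * k) := by
      have h5 : B ^ (3 * k) = B ^ k * B ^ (2 * k) := by
        rw [← pow_add]
        congr 1
        ring
      rw [h5]
      exact Nat.mul_le_mul h1 h3
    have h5 : k.factorial * (s + s * s) ^ k + 1 ≤ B ^ (3 * k + 1) := by
      have h6 : 1 ≤ B ^ (3 * k) := Nat.one_le_pow _ _ (by omega)
      have h7 : B ^ (3 * k) * 2 ≤ B ^ (3 * k) * B := Nat.mul_le_mul_left _ hB2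
      rw [pow_succ]
      omega
    have h6 : (k.factorial * (s + s * s) ^ k + 1) ^ 2 ≤ B ^ ((3 * k + 1) * 2) := by
      rw [pow_mul]
      exact Nat.pow_le_pow_left h5 2
    calc s * (k.factorial * (s + s * s) ^ k + 1) ^ 2 * n
        = (s * n) * (k.factorial * (s + s * s) ^ k + 1) ^ 2 := by ring
      _ ≤ B ^ 2 * B ^ ((3 * k + 1) * 2) := Nat.mul_le_mul hsn h6
      _ = B ^ (2 + (3 * k + 1) * 2) := (pow_add _ _ _).symm
      _ < B ^ (36 * k * c + 6 * k + 8) := num_lt _ _ _ hB2 (by omega)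
  · exact lt_of_le_of_lt hsn (num_lt _ _ _ hB2 (by omega))
  · have h1 : 6 * k * c + 1 ≤ B ^ 3 := by
      have h2 : (k + c + 2) ^ 3 ≤ B ^ 3 := Nat.pow_le_pow_left (by omega) 3
      have h3 : 6 * k * c + 1 ≤ (k + c + 2) ^ 3 := by
        have h4 : (k + c + 2) ^ 3 = 6 * k * c + 1 + (k ^ 3 + c ^ 3 + 3 * k ^ 2 * c + 3 * k * c ^ 2
          + 6 * k ^ 2 + 6 * c ^ 2 + 6 * k * c + 12 * k + 12 * c + 7) := by ring
        omega
      omega
    have h2 : (6 * k * c + 1).factorial ≤ B ^ (3 * (6 * k * c + 1)) := by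
      rw [pow_mul]
      exact num_fac _ _ h1
    have h3 : (2 * k + 1) * D ≤ B ^ 3 := by
      have h4 : 2 * k + 1 ≤ B ^ 2 := by
        have h5 : (k + 2) ^ 2 ≤ B ^ 2 := Nat.pow_le_pow_left (by omega) 2
        have h6 : (k + 2) ^ 2 = 2 * k + 1 + (k ^ 2 + 2 * k + 3) := by ring
        omega
      have h5 : B ^ 3 = B ^ 2 * B := by ring
      rw [h5]
      exact Nat.mul_le_mul h4 hD
    have h4 : ((2 * k + 1) * D) ^ (6 * k * c + 1) ≤ B ^ (3 * (6 * k * c + 1)) := by
      rw [pow_mul]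
      exact Nat.pow_le_pow_left h3 _
    have h5 : 3 * (6 * k * c + 1) + 3 * (6 * k * c + 1) < 36 * k * c + 6 * k + 8 := by
      have h6 : 3 * (6 * k * c + 1) + 3 * (6 * k * c + 1) = 36 * k * c + 6 := by ring
      omega
    calc (6 * k * c + 1).factorial * ((2 * k + 1) * D) ^ (6 * k * c + 1)
        ≤ B ^ (3 * (6 * k * c + 1)) * B ^ (3 * (6 * k * c + 1)) := Nat.mul_le_mul h2 h4
      _ = B ^ (3 * (6 * k * c + 1) + 3 * (6 * k * c + 1)) := (pow_add _ _ _).symm
      _ < B ^ (36 * k * c + 6 * k + 8) := num_lt _ _ _ hB2 h5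

end Pool.Agent.TOR.H2
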